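import Pool.Agent.Y407.LG.Div

set_option autoImplicit false

/-! Division rings that act continuously on a complete separable ultrametric group. -/

universe u v w

namespace Pool.Agent.Y407.LG

open Set Cardinal

/-- `D` acts from the right, by continuous additive maps, on a nonzero complete separable
ultrametric normed group. -/
def Acts (D : Type u) [DivisionRing D] : Prop :=
  ∃ (C : Type) (_ : NormedAddCommGroup C) (_ : IsUltrametricDist C) (_ : CompleteSpace C)
    (_ : TopologicalSpace.SeparableSpace C) (_ : Nontrivial C) (_ : Module Dᵐᵒᵖ C),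
    ContinuousConstSMul Dᵐᵒᵖ C

/-- every field with at most continuum many elements acts -/
theorem acts_of_field (F : Type u) [Field F] (hF : #F ≤ continuum) : Acts F := by
  obtain ⟨A, i1, i2, i3, i4, ⟨σ⟩⟩ := exists_big F hF
  let τ : Fᵐᵒᵖ →+* A := σ.comp (RingEquiv.toOpposite F).symm.toRingHom
  let _ : Module Fᵐᵒᵖ A := Module.compHom A τ
  refine ⟨A, inferInstance, inferInstance, inferInstance, inferInstance, inferInstance,
    inferInstance, ⟨fun c => ?_⟩⟩
  change Continuous fun x : A => τ c * x
  exact continuous_const.mul continuous_id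

/-- every division ring that embeds into a complete separable ultrametric normed ring acts -/
theorem acts_of_ring (D : Type u) [DivisionRing D] (A : Type) [NormedRing A] [Nontrivial A]
    [IsUltrametricDist A] [CompleteSpace A] [TopologicalSpace.SeparableSpace A] (σ : D →+* A) :
    Acts D := by
  let _ : Module Dᵐᵒᵖ A := Module.compHom A (RingHom.op σ)
  refine ⟨A, inferInstance, inferInstance, inferInstance, inferInstance, inferInstance,
    inferInstance, ⟨fun c => ?_⟩⟩
  change Continuous fun x : A => x * σ c.unop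
  exact continuous_id.mul continuous_const

section ann

variable {D : Type u} [DivisionRing D] {V : Type w} [AddCommGroup V] [Module D V]

theorem finite_op (D : Type u) [DivisionRing D] : Module.Finite Dᵐᵒᵖ D := by
  refine ⟨⟨{1}, ?_⟩⟩
  rw [eq_top_iff]
  intro x _
  rw [Finset.coe_singleton, Submodule.mem_span_singleton]
  exact ⟨MulOpposite.op x, by rw [op_smul_eq_mul, one_mul]⟩

/-- the annihilator, a space over the opposite division ring -/
def ann (W : Submodule D V) : Submodule Dᵐᵒᵖ (V →ₗ[D] D) where
  carrier := {l | ∀ w ∈ W, l w = 0}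
  zero_mem' := fun w _ => rfl
  add_mem' := fun {x y} hx hy w hw => by rw [LinearMap.add_apply, hx w hw, hy w hw, add_zero]
  smul_mem' := fun c x hx w hw => by rw [LinearMap.smul_apply, hx w hw, smul_zero]

theorem mem_ann {W : Submodule D V} {l : V →ₗ[D] D} : l ∈ ann W ↔ ∀ w ∈ W, l w = 0 := Iff.rfl

theorem ann_le {W₁ W₂ : Submodule D V} : ann W₁ ≤ ann W₂ ↔ W₂ ≤ W₁ := by
  constructor
  · intro h v hv
    by_contra hv'
    obtain ⟨T, hT, hTv⟩ := exists_sep (C := D) _ hv'
    exact hTv ((h (mem_ann.2 hT)) v hv)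
  · intro h l hl w hw
    exact hl w (h hw)

/-- the annihilator as a homomorphism into the dual lattice -/
def annHom : LatticeHom (Submodule D V) (Submodule Dᵐᵒᵖ (V →ₗ[D] D))ᵒᵈ where
  toFun W := OrderDual.toDual (ann W)
  map_sup' W₁ W₂ := by
    apply le_antisymm
    · change ann W₁ ⊓ ann W₂ ≤ ann (W₁ ⊔ W₂)
      rintro l ⟨h1, h2⟩ w hw
      obtain ⟨y, hy, z, hz, rfl⟩ := Submodule.mem_sup.1 hw
      rw [map_add, h1 y hy, h2 z hz, add_zero]
    · change ann (W₁ ⊔ W₂) ≤ ann W₁ ⊓ ann W₂
      exact le_inf (ann_le.2 le_sup_left) (ann_le.2 le_sup_right)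
  map_inf' W₁ W₂ := by
    apply le_antisymm
    · change ann W₁ ⊔ ann W₂ ≤ ann (W₁ ⊓ W₂)
      exact sup_le (ann_le.2 inf_le_left) (ann_le.2 inf_le_right)
    · change ann (W₁ ⊓ W₂) ≤ ann W₁ ⊔ ann W₂
      intro l hl
      obtain ⟨T₁, h1, h2⟩ := exists_split W₁ W₂ l hl
      rw [Submodule.mem_sup]
      refine ⟨T₁, h1, l - T₁, ?_, by abel⟩
      intro w hw
      rw [LinearMap.sub_apply, h2 w hw, sub_self]

theorem annHom_injective : Function.Injective (annHom (D := D) (V := V)) := by
  intro W₁ W₂ h
  have h' : ann W₁ = ann W₂ := h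
  exact le_antisymm (ann_le.1 h'.ge) (ann_le.1 h'.le)

theorem finite_dual (D : Type u) [DivisionRing D] (V : Type w) [AddCommGroup V] [Module D V]
    [Module.Finite D V] : Module.Finite Dᵐᵒᵖ (V →ₗ[D] D) := by
  have := finite_op D
  exact Module.Finite.equiv ((Module.finBasis D V).constr Dᵐᵒᵖ)

end ann

/-- the subspace lattice of a finite-dimensional left vector space over a division ring that acts -/
theorem rep_of_acts (D : Type u) [DivisionRing D] (hD : Acts D) (V : Type w) [AddCommGroup V]
    [Module D V] [Module.Finite D V] : Rep (Submodule D V) := by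
  obtain ⟨C, i1, i2, i3, i4, i5, i6, i7⟩ := hD
  have := finite_dual D V
  exact (rep_dual Dᵐᵒᵖ C (V →ₗ[D] D)).comp annHom annHom_injective

end Pool.Agent.Y407.LG
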