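import Pool.Agent.H845.LocCloneDefs
import Pool.Agent.W344.LocalLatDef

set_option autoImplicit false

/-! The lattice of local monoids on `ℕ` is a sublattice of the lattice of local clones on `ℕ`. -/

universe u v w

namespace Pool.Agent.Y407.LG

open Set Pool.Agent.W344.LocalLat Pool.H845.LocClone

/-- membership in a closed set of self-maps of `ℕ` -/
theorem mem_of_finite_approx {S : Set (ℕ → ℕ)} (hS : @IsClosed (ℕ → ℕ) (ptTop ℕ) S) {g : ℕ → ℕ}
    (h : ∀ A : Finset ℕ, ∃ f ∈ S, ∀ a ∈ A, f a = g a) : g ∈ S := by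
  let _ : TopologicalSpace ℕ := ⊥
  have _ : DiscreteTopology ℕ := ⟨rfl⟩
  have hS' : IsClosed S := hS
  rw [← hS'.closure_eq, mem_closure_iff_nhds]
  intro t ht
  rw [nhds_pi, Filter.mem_pi'] at ht
  obtain ⟨I, u, hu, hut⟩ := ht
  obtain ⟨f, hf, hfg⟩ := h I
  refine ⟨f, hut ?_, hf⟩
  intro a ha
  rw [hfg a ha]
  exact mem_of_mem_nhds (hu a)

/-- the closedness of a set of self-maps of `ℕ` -/
theorem closed_of_finite_approx {S : Set (ℕ → ℕ)}
    (h : ∀ g : ℕ → ℕ, (∀ A : Finset ℕ, ∃ f ∈ S, ∀ a ∈ A, f a = g a) → g ∈ S) :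
    @IsClosed (ℕ → ℕ) (ptTop ℕ) S := by
  let _ : TopologicalSpace ℕ := ⊥
  have _ : DiscreteTopology ℕ := ⟨rfl⟩
  change IsClosed S
  rw [← closure_subset_iff_isClosed]
  intro g hg
  refine h g fun A => ?_
  rw [mem_closure_iff_nhds] at hg
  have hU : Set.pi (↑A : Set ℕ) (fun a => ({g a} : Set ℕ)) ∈ nhds g :=
    set_pi_mem_nhds A.finite_toSet fun a _ => by
      rw [nhds_discrete]
      exact Filter.mem_pure.2 rfl
  obtain ⟨f, hf, hfS⟩ := hg _ hU
  exact ⟨f, hfS, fun a ha => hf a ha⟩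

/-- the essentially unary clone of a local monoid -/
def unOps (M : LocalMonoid ℕ) : Ops := fun n =>
  {f | ∃ g : ℕ → ℕ, g ∈ {f : ℕ → ℕ | f ∈ M.1} ∧ ∃ i : Fin (n + 1), ∀ x, f x = g (x i)}

theorem unOps_clone (M : LocalMonoid ℕ) : IsLocalClone (unOps M) := by
  classical
  refine ⟨?_, ?_, ?_⟩
  · intro n i
    exact ⟨id, M.1.one_mem, i, fun x => rfl⟩
  · rintro n m g hs ⟨g0, hg0, i, hi⟩ hhs
    obtain ⟨g1, hg1, j, hj⟩ := hhs i
    refine ⟨g0 ∘ g1, M.1.mul_mem hg0 hg1, j, fun x => ?_⟩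
    change g (fun i => hs i x) = g0 (g1 (x j))
    rw [hi, ← hj]
  · intro n g hg
    -- one coordinate works for all finite sets
    have h1 : ∃ i : Fin (n + 1), ∀ A : Finset (Fin (n + 1) → ℕ),
        ∃ m ∈ {f : ℕ → ℕ | f ∈ M.1}, ∀ x ∈ A, m (x i) = g x := by
      by_contra hcon
      push Not at hcon
      choose A hA using hcon
      obtain ⟨h, ⟨m, hm, i, hi⟩, hh⟩ := hg (Finset.univ.biUnion A)
      obtain ⟨x, hx, hne⟩ := hA i m hm
      apply hne
      rw [← hi x]
      exact hh x (Finset.mem_biUnion.2 ⟨i, Finset.mem_univ _, hx⟩)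
    obtain ⟨i, hi⟩ := h1
    refine ⟨fun a => g (fun _ => a), ?_, i, ?_⟩
    · apply mem_of_finite_approx M.2
      intro A
      obtain ⟨m, hm, hmA⟩ := hi (A.image fun a => fun _ => a)
      refine ⟨m, hm, fun a ha => ?_⟩
      exact hmA (fun _ => a) (Finset.mem_image.2 ⟨a, ha, rfl⟩)
    · intro x
      obtain ⟨m, hm, hmA⟩ := hi {x, fun _ => x i}
      exact (hmA x (by simp)).symm.trans (hmA (fun _ => x i) (by simp))

theorem unOps_mono {M N : LocalMonoid ℕ} (h : M ≤ N) : unOps M ≤ unOps N := by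
  rintro n f ⟨g, hg, i, hi⟩
  exact ⟨g, h hg, i, hi⟩

theorem unOps_inj : Function.Injective unOps := by
  have key : ∀ M N : LocalMonoid ℕ, unOps M ≤ unOps N → M ≤ N := by
    intro M N h g hg
    obtain ⟨g', hg', i, hi⟩ := h 0 (show (fun x : Fin (0 + 1) → ℕ => g (x 0)) ∈ unOps M 0 from
      ⟨g, hg, 0, fun x => rfl⟩)
    have : g = g' := by
      funext a
      exact hi (fun _ => a)
    rw [this]
    exact hg'
  intro M N h
  exact le_antisymm (key M N h.le) (key N M h.ge)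

/-- the unary part of a local clone is a local monoid -/
def unPart (C : Ops) (hC : IsLocalClone C) : LocalMonoid ℕ :=
  ⟨{ carrier := {g : Function.End ℕ | (fun x : Fin (0 + 1) → ℕ => g (x 0)) ∈ C 0}
     one_mem' := hC.1 0 0
     mul_mem' := fun {a b} ha hb => by
       have := hC.2.1 0 0 _ (fun _ => fun x : Fin (0 + 1) → ℕ => b (x 0)) ha (fun _ => hb)
       exact this }, by
    apply closed_of_finite_approx
    intro g hg
    refine hC.2.2 0 _ fun F => ?_
    classical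
    obtain ⟨f, hf, hfg⟩ := hg (F.image fun x => x 0)
    exact ⟨_, hf, fun x hx => hfg (x 0) (Finset.mem_image.2 ⟨x, hx, rfl⟩)⟩⟩

theorem unOps_le {C : Ops} (hC : IsLocalClone C) (M : LocalMonoid ℕ) :
    unOps M ≤ C ↔ M ≤ unPart C hC := by
  constructor
  · intro h g hg
    exact h 0 ⟨g, hg, 0, fun x => rfl⟩
  · rintro h n f ⟨g, hg, i, hi⟩
    have h1 : (fun x : Fin (0 + 1) → ℕ => g (x 0)) ∈ C 0 := h hg
    have h2 := hC.2.1 0 n _ (fun _ => fun x : Fin (n + 1) → ℕ => x i) h1 (fun _ => hC.1 n i)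
    have h3 : f = fun x => g (x i) := funext hi
    rw [h3]
    exact h2

/-- lattices of local monoids give lattices of local clones -/
theorem embedding_of_hom {L : Type} [Lattice L] (f : LatticeHom L (LocalMonoid ℕ))
    (hf : Function.Injective f) : IsLatticeEmbedding (fun a => unOps (f a)) := by
  refine ⟨⟨unOps_inj.comp hf, fun a => unOps_clone _, fun a b => ⟨?_, ?_⟩, ?_⟩, ?_⟩
  · exact unOps_mono (OrderHomClass.mono f le_sup_left)
  · exact unOps_mono (OrderHomClass.mono f le_sup_right)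
  · intro a b C hC ha hb
    simp only [unOps_le hC, map_sup] at ha hb ⊢
    exact sup_le ha hb
  · intro a b
    apply le_antisymm
    · exact le_inf (unOps_mono (OrderHomClass.mono f inf_le_left))
        (unOps_mono (OrderHomClass.mono f inf_le_right))
    · rintro n h ⟨⟨g, hg, i, hi⟩, ⟨g', hg', j, hj⟩⟩
      have hgg : g = g' := by
        funext c
        exact (hi (fun _ => c)).symm.trans (hj (fun _ => c))
      refine ⟨g, ?_, i, hi⟩
      rw [map_inf]
      let P : LocalMonoid ℕ := ⟨(f a).1 ⊓ (f b).1, by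
        have : {k : ℕ → ℕ | k ∈ (f a).1 ⊓ (f b).1} =
          {k : ℕ → ℕ | k ∈ (f a).1} ∩ {k : ℕ → ℕ | k ∈ (f b).1} := rfl
        rw [this]
        exact @IsClosed.inter _ _ _ (ptTop ℕ) (f a).2 (f b).2⟩
      have h1 : P ≤ f a := fun x hx => hx.1
      have h2 : P ≤ f b := fun x hx => hx.2
      have h3 : P ≤ f a ⊓ f b := le_inf h1 h2
      exact h3 ⟨hg, hgg ▸ hg'⟩

end Pool.Agent.Y407.LG
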