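import Mathlib
import Pool.Agent.W344.LocalLatDef

set_option autoImplicit false

/-! The number of local monoids and of locally closed groups on a countable set. -/

universe u v w

namespace Pool.Agent.Y407.LG

open Set Filter Topology Cardinal Pool.Agent.W344.LocalLat

theorem card_closed_le (Y : Type u) [TopologicalSpace Y] [SecondCountableTopology Y] :
    #{C : Set Y // IsClosed C} ≤ continuum := by
  set B := TopologicalSpace.countableBasis Y with hB
  have hbas : TopologicalSpace.IsTopologicalBasis B := TopologicalSpace.isBasis_countableBasis Y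
  have hcount : B.Countable := TopologicalSpace.countable_countableBasis Y
  let f : {C : Set Y // IsClosed C} → Set B := fun C => {b | Disjoint b.1 C.1}
  have hf : Function.Injective f := by
    have key : ∀ C C' : {C : Set Y // IsClosed C}, f C = f C' → C'.1 ⊆ C.1 := by
      intro C C' h x hx
      by_contra hxC
      obtain ⟨b, hb, hxb, hbC⟩ := hbas.exists_subset_of_mem_open
        (show x ∈ C.1ᶜ from hxC) C.2.isOpen_compl
      have h1 : (⟨b, hb⟩ : B) ∈ f C := Set.disjoint_left.2 fun y hy => hbC hy
      rw [h] at h1
      exact Set.disjoint_left.1 h1 hxb hx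
    intro C C' h
    exact Subtype.ext (Set.Subset.antisymm (key C' C h.symm) (key C C' h))
  refine (mk_le_of_injective hf).trans ?_
  rw [mk_set]
  have : #B ≤ ℵ₀ := hcount.le_aleph0
  calc (2 : Cardinal.{u}) ^ #B ≤ 2 ^ ℵ₀ := power_le_power_left two_ne_zero this
    _ = continuum := two_power_aleph0

theorem card_localMonoid_le (X : Type u) [Countable X] : #(LocalMonoid X) ≤ continuum := by
  let _ : TopologicalSpace X := ⊥
  have _ : DiscreteTopology X := ⟨rfl⟩
  have _ : SecondCountableTopology X := inferInstance
  have _ : SecondCountableTopology (X → X) := inferInstance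
  refine (mk_le_of_injective (β := {C : Set (X → X) // IsClosed C})
    (f := fun M : LocalMonoid X => ⟨{f : X → X | f ∈ M.1}, M.2⟩) ?_).trans
    (card_closed_le (X → X))
  intro M N h
  have h' : {f : X → X | f ∈ M.1} = {f : X → X | f ∈ N.1} := congrArg Subtype.val h
  apply Subtype.ext
  ext f
  exact Set.ext_iff.1 h' f

theorem card_localGroup_le (X : Type u) [Countable X] : #(LocalGroup X) ≤ continuum := by
  let _ : TopologicalSpace X := ⊥
  have _ : DiscreteTopology X := ⟨rfl⟩
  have _ : SecondCountableTopology X := inferInstance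
  have h0 : SecondCountableTopology (X → X) := inferInstance
  let _ : TopologicalSpace (Equiv.Perm X) := symTop X
  have _ : SecondCountableTopology (Equiv.Perm X) :=
    @TopologicalSpace.secondCountableTopology_induced (Equiv.Perm X) (X → X) (ptTop X) h0 _
  refine (mk_le_of_injective (β := {C : Set (Equiv.Perm X) // IsClosed C})
    (f := fun M : LocalGroup X => ⟨{f : Equiv.Perm X | f ∈ M.1}, M.2⟩) ?_).trans
    (card_closed_le (Equiv.Perm X))
  intro M N h
  have h' : {f : Equiv.Perm X | f ∈ M.1} = {f : Equiv.Perm X | f ∈ N.1} := congrArg Subtype.val h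
  apply Subtype.ext
  ext f
  exact Set.ext_iff.1 h' f

theorem card_submodule (F : Type v) [Field F] {n : ℕ} (hn : 2 ≤ n) :
    #F ≤ #(Submodule F (Fin n → F)) := by
  let i0 : Fin n := ⟨0, by omega⟩
  let i1 : Fin n := ⟨1, by omega⟩
  have h01 : i0 ≠ i1 := by
    intro h
    exact absurd (congrArg Fin.val h) (by simp [i0, i1])
  refine mk_le_of_injective (f := fun a : F => Submodule.span F
    {(Pi.single i0 1 + a • Pi.single i1 1 : Fin n → F)}) ?_
  intro a b hab
  simp only at hab
  have h1 : (Pi.single i0 1 + a • Pi.single i1 1 : Fin n → F) ∈ Submodule.span F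
      {(Pi.single i0 1 + b • Pi.single i1 1 : Fin n → F)} := by
    rw [← hab]
    exact Submodule.mem_span_singleton_self _
  obtain ⟨c, hc⟩ := Submodule.mem_span_singleton.1 h1
  have h2 := congrFun hc i0
  have h3 := congrFun hc i1
  simp only [Pi.smul_apply, Pi.add_apply, smul_eq_mul, Pi.single_eq_same,
    Pi.single_eq_of_ne h01, Pi.single_eq_of_ne h01.symm] at h2 h3
  have hc1 : c = 1 := by simpa using h2
  rw [hc1] at h3
  simpa using h3.symm

end Pool.Agent.Y407.LG
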