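import Pool.Agent.Y407.LG.Prd

set_option autoImplicit false

/-! Subspaces over division rings that act on a complete separable ultrametric group. -/

universe u v w

namespace Pool.Agent.Y407.LG

open Set

section div

variable {D : Type u} [DivisionRing D] {C : Type v} [AddCommGroup C] [Module D C]
  {V : Type w} [AddCommGroup V] [Module D V]

/-- linear maps separate points from subspaces -/
theorem exists_sep [Nontrivial C] (W : Submodule D V) {v : V} (hv : v ∉ W) :
    ∃ T : V →ₗ[D] C, (∀ w ∈ W, T w = 0) ∧ T v ≠ 0 := by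
  obtain ⟨c, hc⟩ := exists_ne (0 : C)
  have hv' : W.mkQ v ≠ 0 := by
    intro h
    apply hv
    rwa [Submodule.mkQ_apply, Submodule.Quotient.mk_eq_zero] at h
  have hker : LinearMap.ker (LinearMap.toSpanSingleton D (V ⧸ W) (W.mkQ v)) = ⊥ :=
    LinearMap.ker_toSpanSingleton D hv'
  obtain ⟨g, hg⟩ := LinearMap.exists_leftInverse_of_injective _ hker
  refine ⟨(LinearMap.toSpanSingleton D C c) ∘ₗ g ∘ₗ W.mkQ, ?_, ?_⟩
  · intro w hw
    have : W.mkQ w = 0 := by
      rw [Submodule.mkQ_apply, Submodule.Quotient.mk_eq_zero]; exact hw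
    simp only [LinearMap.comp_apply, this, map_zero]
  · have h1 := LinearMap.congr_fun hg 1
    simp only [LinearMap.comp_apply, LinearMap.toSpanSingleton_apply, one_smul,
      LinearMap.id_apply] at h1
    simp only [LinearMap.comp_apply, h1, LinearMap.toSpanSingleton_apply, one_smul]
    exact hc

/-- a linear map that vanishes on `W₁ ⊓ W₂` is the sum of one that vanishes on `W₁` and one that
vanishes on `W₂` -/
theorem exists_split (W₁ W₂ : Submodule D V) (T : V →ₗ[D] C) (hT : ∀ w ∈ W₁ ⊓ W₂, T w = 0) :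
    ∃ T₁ : V →ₗ[D] C, (∀ w ∈ W₁, T₁ w = 0) ∧ ∀ w ∈ W₂, T₁ w = T w := by
  let q : W₂ →ₗ[D] (V ⧸ W₁) := W₁.mkQ ∘ₗ W₂.subtype
  obtain ⟨s, hs⟩ := LinearMap.exists_rightInverse_of_surjective q.rangeRestrict
    (LinearMap.range_rangeRestrict q)
  obtain ⟨T', hT'⟩ := LinearMap.exists_extend (T ∘ₗ W₂.subtype ∘ₗ s)
  refine ⟨T' ∘ₗ W₁.mkQ, ?_, ?_⟩
  · intro w hw
    have : W₁.mkQ w = 0 := by
      rw [Submodule.mkQ_apply, Submodule.Quotient.mk_eq_zero]; exact hw
    simp only [LinearMap.comp_apply, this, map_zero]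
  · intro w hw
    have h1 := LinearMap.congr_fun hT' (q.rangeRestrict ⟨w, hw⟩)
    have h2 := LinearMap.congr_fun hs (q.rangeRestrict ⟨w, hw⟩)
    simp only [LinearMap.comp_apply, LinearMap.id_apply, Submodule.subtype_apply] at h1 h2
    have h3 : (q.rangeRestrict ⟨w, hw⟩ : V ⧸ W₁) = W₁.mkQ w := rfl
    rw [h3] at h1
    rw [LinearMap.comp_apply, h1, ← sub_eq_zero, ← map_sub]
    refine hT _ ⟨?_, ?_⟩
    · have h4 : q (s (q.rangeRestrict ⟨w, hw⟩)) = q ⟨w, hw⟩ := congrArg Subtype.val h2
      have h5 : W₁.mkQ ((s (q.rangeRestrict ⟨w, hw⟩) : V)) = W₁.mkQ w := h4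
      rw [Submodule.mkQ_apply, Submodule.mkQ_apply, Submodule.Quotient.eq] at h5
      exact h5
    · exact Submodule.sub_mem _ (Submodule.coe_mem _) hw

end div

/-- the dual of the subspace lattice of a finite-dimensional left vector space over a division ring
that acts continuously on a nonzero complete separable ultrametric group -/
theorem rep_dual (D : Type u) [DivisionRing D] (C : Type) [NormedAddCommGroup C]
    [IsUltrametricDist C] [CompleteSpace C] [TopologicalSpace.SeparableSpace C] [Nontrivial C]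
    [Module D C] [ContinuousConstSMul D C] (V : Type w) [AddCommGroup V] [Module D V]
    [Module.Finite D V] : Rep (Submodule D V)ᵒᵈ := by
  let b := Module.finBasis D V
  let n := Module.finrank D V
  let t : (Fin n → C) ≃ₗ[ℕ] (V →ₗ[D] C) := b.constr ℕ
  have ht : ∀ x w, t x w = ∑ i, b.repr w i • x i := fun x w => b.constr_apply_fintype ℕ x w
  let Φ : (Submodule D V)ᵒᵈ → AddSubgroup (Fin n → C) := fun W =>
    { carrier := {x | ∀ w ∈ OrderDual.ofDual W, t x w = 0}
      zero_mem' := fun w _ => by rw [map_zero]; rfl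
      add_mem' := fun {x y} hx hy w hw => by
        rw [map_add, LinearMap.add_apply, hx w hw, hy w hw, add_zero]
      neg_mem' := fun {x} hx w hw => by
        have h := hx w hw
        rw [ht] at h ⊢
        simp only [Pi.neg_apply, smul_neg, Finset.sum_neg_distrib, h, neg_zero] }
  have hmem : ∀ W x, x ∈ Φ W ↔ ∀ w ∈ OrderDual.ofDual W, t x w = 0 := fun _ _ => Iff.rfl
  refine ⟨Fin n → C, inferInstance, inferInstance, inferInstance, inferInstance, Φ, ?_, ?_, ?_, ?_⟩
  · intro W
    have : (Φ W : Set (Fin n → C)) = ⋂ w ∈ OrderDual.ofDual W, {x | t x w = 0} := by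
      ext x
      simp [hmem]
    rw [this]
    refine isClosed_biInter fun w _ => isClosed_eq ?_ continuous_const
    simp only [ht]
    exact continuous_finsetSum _ fun i _ => (continuous_apply i).const_smul _
  · intro W₁ W₂
    constructor
    · intro h
      change OrderDual.ofDual W₂ ≤ OrderDual.ofDual W₁
      intro v hv
      by_contra hv'
      obtain ⟨T, hT, hTv⟩ := exists_sep (C := C) _ hv'
      have h1 : t.symm T ∈ Φ W₁ := by
        intro w hw
        rw [LinearEquiv.apply_symm_apply]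
        exact hT w hw
      have h2 := h h1 v hv
      rw [LinearEquiv.apply_symm_apply] at h2
      exact hTv h2
    · intro h x hx w hw
      exact hx w (h hw)
  · rintro W₁ W₂ x ⟨h1, h2⟩
    intro w hw
    have hw' : w ∈ OrderDual.ofDual W₁ ⊔ OrderDual.ofDual W₂ := hw
    obtain ⟨y, hy, z, hz, rfl⟩ := Submodule.mem_sup.1 hw'
    rw [map_add, h1 y hy, h2 z hz, add_zero]
  · intro W₁ W₂ x hx
    obtain ⟨T₁, h1, h2⟩ := exists_split (OrderDual.ofDual W₁) (OrderDual.ofDual W₂) (t x)
      (fun w hw => hx w hw)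
    rw [AddSubgroup.mem_sup]
    refine ⟨t.symm T₁, ?_, x - t.symm T₁, ?_, by abel⟩
    · intro w hw
      rw [LinearEquiv.apply_symm_apply]
      exact h1 w hw
    · intro w hw
      have h3 : x = t.symm T₁ + (x - t.symm T₁) := by abel
      have h4 : t x w = t (t.symm T₁) w + t (x - t.symm T₁) w := by
        rw [← LinearMap.add_apply, ← map_add, ← h3]
      rw [LinearEquiv.apply_symm_apply, h2 w hw] at h4
      exact left_eq_add.1 h4

end Pool.Agent.Y407.LG
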