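import Mathlib
import Pool.Agent.W344.LocalLatDef

set_option autoImplicit false

/-! Closed subgroups of a complete separable ultrametric group give sublattices of the lattices of
local monoids and of locally closed permutation groups. -/

universe u v w

namespace Pool.Agent.Y407.LG

open Set Filter Topology Pool.Agent.W344.LocalLat

section engine

variable (E : Type w) [NormedAddCommGroup E] [IsUltrametricDist E]

/-- the ball of radius `2^{-n}` -/
def U (n : ℕ) : AddSubgroup E where
  carrier := {q | ‖q‖ ≤ (1 / 2 : ℝ) ^ n}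
  zero_mem' := by
    change ‖(0 : E)‖ ≤ _
    rw [norm_zero]; positivity
  add_mem' := by
    intro a b ha hb
    exact (IsUltrametricDist.norm_add_le_max a b).trans (max_le ha hb)
  neg_mem' := by
    intro a ha
    change ‖-a‖ ≤ _
    rw [norm_neg]; exact ha

variable {E}

theorem mem_U {n : ℕ} {q : E} : q ∈ U E n ↔ ‖q‖ ≤ (1 / 2 : ℝ) ^ n := Iff.rfl

theorem isClosed_U (n : ℕ) : IsClosed {q : E | q ∈ U E n} := by
  simp_rw [mem_U]
  exact isClosed_le continuous_norm continuous_const

variable (E)

/-- the set acted on -/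
abbrev X0 : Type w := Σ n : ℕ, E ⧸ U E n

theorem countable_quot [TopologicalSpace.SeparableSpace E] (n : ℕ) : Countable (E ⧸ U E n) := by
  let f : ℕ → E ⧸ U E n := fun r => QuotientAddGroup.mk (TopologicalSpace.denseSeq E r)
  have hf : Function.Surjective f := by
    intro q
    obtain ⟨x, rfl⟩ := QuotientAddGroup.mk_surjective q
    obtain ⟨r, hr⟩ := (TopologicalSpace.denseRange_denseSeq E).exists_dist_lt x
      (ε := (1 / 2 : ℝ) ^ n) (by positivity)
    refine ⟨r, ?_⟩
    simp only [f]
    rw [QuotientAddGroup.eq]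
    change ‖-(TopologicalSpace.denseSeq E r) + x‖ ≤ _
    rw [neg_add_eq_sub, ← dist_eq_norm]; exact hr.le
  exact hf.countable

variable {E}

/-- translation -/
def act (g : E) (x : X0 E) : X0 E := ⟨x.1, (QuotientAddGroup.mk g : E ⧸ U E x.1) + x.2⟩

theorem act_zero : act (0 : E) = id := by
  funext ⟨n, x⟩
  simp [act]

theorem act_add (g h : E) (x : X0 E) : act (g + h) x = act g (act h x) := by
  obtain ⟨n, x⟩ := x
  simp only [act]
  congr 1
  rw [QuotientAddGroup.mk_add, add_assoc]
  rfl

theorem act_base {g h : E} {n : ℕ} : act g (⟨n, 0⟩ : X0 E) = act h ⟨n, 0⟩ ↔ g - h ∈ U E n := by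
  simp only [act, add_zero]
  rw [Sigma.mk.injEq]
  simp only [heq_eq_eq, true_and]
  rw [QuotientAddGroup.eq, neg_add_eq_sub, ← neg_sub, neg_mem_iff]

theorem eq_zero_of_mem {g : E} (h : ∀ n, g ∈ U E n) : g = 0 := by
  have h1 : Tendsto (fun n : ℕ => (1 / 2 : ℝ) ^ n) atTop (𝓝 0) :=
    tendsto_pow_atTop_nhds_zero_of_lt_one (by norm_num) (by norm_num)
  have h2 : ‖g‖ ≤ 0 := ge_of_tendsto' h1 fun n => mem_U.1 (h n)
  exact norm_le_zero_iff.1 h2

theorem act_inj {g h : E} (H : act g = act h) : g = h := by
  rw [← sub_eq_zero]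
  apply eq_zero_of_mem
  intro n
  rw [← act_base, H]

section transport

variable {X : Type u} (e : X ≃ X0 E)

/-- transported translation -/
def actX (g : E) : X → X := fun x => e.symm (act g (e x))

theorem actX_zero : actX e (0 : E) = id := by
  funext x
  simp [actX, act_zero]

theorem actX_add (g h : E) : actX e (g + h) = actX e g ∘ actX e h := by
  funext x
  simp [actX, act_add]

theorem actX_inj {g h : E} (H : actX e g = actX e h) : g = h := by
  apply act_inj
  funext y
  have := congrFun H (e.symm y)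
  simpa [actX] using this

theorem actX_closed [CompleteSpace E] (S : Set E) (hS : IsClosed S) :
    @IsClosed (X → X) (ptTop X) {f : X → X | ∃ g ∈ S, actX e g = f} := by
  let _ : TopologicalSpace X := ⊥
  have _ : DiscreteTopology X := ⟨rfl⟩
  change @IsClosed (X → X) Pi.topologicalSpace {f : X → X | ∃ g ∈ S, actX e g = f}
  apply isClosed_of_closure_subset
  intro f hf
  have key : ∀ F : Finset X, ∃ g ∈ S, ∀ x ∈ F, actX e g x = f x := by
    intro F
    have hopen : IsOpen {h : X → X | ∀ x ∈ F, h x = f x} := by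
      have : {h : X → X | ∀ x ∈ F, h x = f x} = ⋂ x ∈ F, (fun h : X → X => h x) ⁻¹' {f x} := by
        ext h; simp
      rw [this]
      exact isOpen_biInter_finset fun x _ => (isOpen_discrete _).preimage (continuous_apply x)
    obtain ⟨h, h1, g, hg, h2⟩ := mem_closure_iff.1 hf _ hopen (fun x _ => rfl)
    refine ⟨g, hg, fun x hx => ?_⟩
    rw [h2]; exact h1 x hx
  classical
  choose G hG hGF using fun n : ℕ => key ((Finset.range (n + 1)).image fun k => e.symm ⟨k, 0⟩)
  have h3 : ∀ n k : ℕ, k ≤ n → act (G n) ⟨k, 0⟩ = e (f (e.symm ⟨k, 0⟩)) := by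
    intro n k hk
    have := hGF n (e.symm ⟨k, 0⟩) (Finset.mem_image.2 ⟨k, Finset.mem_range.2 (by omega), rfl⟩)
    rw [← this]
    simp [actX]
  have h4 : ∀ n m : ℕ, n ≤ m → G m - G n ∈ U E n := by
    intro n m hnm
    rw [← act_base, h3 m n hnm, h3 n n le_rfl]
  have hc : CauchySeq G := by
    apply Metric.cauchySeq_iff'.2
    intro ε hε
    obtain ⟨N, hN⟩ := exists_pow_lt_of_lt_one hε (by norm_num : (1 / 2 : ℝ) < 1)
    refine ⟨N, fun n hn => ?_⟩
    rw [dist_eq_norm]
    exact lt_of_le_of_lt (mem_U.1 (h4 N n hn)) hN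
  obtain ⟨g, hg⟩ := cauchySeq_tendsto_of_complete hc
  have hgS : g ∈ S := hS.mem_of_tendsto hg (Eventually.of_forall hG)
  have h5 : ∀ n, g - G n ∈ U E n := by
    intro n
    have h6 : Tendsto (fun m => G m - G n) atTop (𝓝 (g - G n)) := hg.sub_const _
    exact (isClosed_U n).mem_of_tendsto h6 (eventually_atTop.2 ⟨n, fun m hm => h4 n m hm⟩)
  have h7 : ∀ n : ℕ, act g ⟨n, 0⟩ = e (f (e.symm ⟨n, 0⟩)) := by
    intro n
    rw [← h3 n n le_rfl, act_base]
    exact h5 n
  refine ⟨g, hgS, ?_⟩
  funext x
  obtain ⟨g', hg', h8⟩ := key {x, e.symm ⟨(e x).1, 0⟩}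
  have h9 := h8 x (by simp)
  have h10 := h8 (e.symm ⟨(e x).1, 0⟩) (by simp)
  rw [← h9]
  simp only [actX]
  congr 1
  have h11 : act g' ⟨(e x).1, 0⟩ = act g ⟨(e x).1, 0⟩ := by
    rw [h7, ← h10]
    simp [actX]
  have h12 : g' - g ∈ U E (e x).1 := act_base.1 h11
  have h13 : (QuotientAddGroup.mk g : E ⧸ U E (e x).1) = QuotientAddGroup.mk g' := by
    rw [QuotientAddGroup.eq, neg_add_eq_sub]; exact h12
  simp only [act, h13]

/-- the local monoid of translations by the elements of a closed subgroup -/
def monOf [CompleteSpace E] (A : AddSubgroup E) (hA : IsClosed (A : Set E)) : LocalMonoid X :=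
  ⟨{ carrier := {f : X → X | ∃ g ∈ (A : Set E), actX e g = f}
     one_mem' := ⟨0, A.zero_mem, actX_zero e⟩
     mul_mem' := by
      rintro _ _ ⟨g, hg, rfl⟩ ⟨h, hh, rfl⟩
      exact ⟨g + h, A.add_mem hg hh, actX_add e g h⟩ }, actX_closed e _ hA⟩

/-- translations as permutations -/
def actP (g : E) : Equiv.Perm X where
  toFun := actX e g
  invFun := actX e (-g)
  left_inv x := by
    have := congrFun (actX_add e (-g) g) x
    rw [neg_add_cancel, actX_zero] at this
    exact this.symm
  right_inv x := by
    have := congrFun (actX_add e g (-g)) x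
    rw [add_neg_cancel, actX_zero] at this
    exact this.symm

theorem actP_zero : actP e (0 : E) = 1 := by
  ext x
  exact congrFun (actX_zero e) x

theorem actP_add (g h : E) : actP e (g + h) = actP e g * actP e h := by
  ext x
  exact congrFun (actX_add e g h) x

theorem actP_inj {g h : E} (H : actP e g = actP e h) : g = h := by
  apply actX_inj e
  exact congrArg (fun f : Equiv.Perm X => (f : X → X)) H

theorem actP_neg (g : E) : actP e (-g) = (actP e g)⁻¹ := by
  rw [eq_inv_iff_mul_eq_one, ← actP_add, neg_add_cancel, actP_zero]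

theorem actP_closed [CompleteSpace E] (S : Set E) (hS : IsClosed S) :
    @IsClosed (Equiv.Perm X) (symTop X) {f : Equiv.Perm X | ∃ g ∈ S, actP e g = f} := by
  apply (@isClosed_induced_iff (Equiv.Perm X) (X → X) (ptTop X) _ _).2
  refine ⟨_, actX_closed e S hS, ?_⟩
  ext f
  constructor
  · rintro ⟨g, hg, h⟩
    exact ⟨g, hg, Equiv.coe_fn_injective h⟩
  · rintro ⟨g, hg, rfl⟩
    exact ⟨g, hg, rfl⟩

/-- the locally closed group of translations by the elements of a closed subgroup -/
def grOf [CompleteSpace E] (A : AddSubgroup E) (hA : IsClosed (A : Set E)) : LocalGroup X :=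
  ⟨{ carrier := {f : Equiv.Perm X | ∃ g ∈ (A : Set E), actP e g = f}
     one_mem' := ⟨0, A.zero_mem, actP_zero e⟩
     mul_mem' := by
      rintro _ _ ⟨g, hg, rfl⟩ ⟨h, hh, rfl⟩
      exact ⟨g + h, A.add_mem hg hh, actP_add e g h⟩
     inv_mem' := by
      rintro _ ⟨g, hg, rfl⟩
      exact ⟨-g, A.neg_mem hg, actP_neg e g⟩ }, actP_closed e _ hA⟩

end transport

end engine

/-! ### the lattice of closed subgroups -/

/-- closed subgroups -/
def CG (E : Type w) [NormedAddCommGroup E] : Type w :=
  {A : AddSubgroup E // IsClosed (A : Set E)}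

variable {E : Type w} [NormedAddCommGroup E]

/-- closed subgroups are ordered by inclusion -/
instance : PartialOrder (CG E) :=
  inferInstanceAs (PartialOrder {A : AddSubgroup E // IsClosed (A : Set E)})

/-- intersections of closed subgroups are closed subgroups -/
instance : InfSet (CG E) where
  sInf s := ⟨⨅ M ∈ s, M.1, by
    have : ((⨅ M ∈ s, M.1 : AddSubgroup E) : Set E) = ⋂ M ∈ s, (M.1 : Set E) := by
      ext f
      simp
    rw [this]
    exact isClosed_biInter fun M _ => M.2⟩

/-- the complete lattice of closed subgroups: the meet is the intersection, the join is the least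
closed subgroup containing both -/
instance : CompleteLattice (CG E) :=
  completeLatticeOfInf _ (fun s => by
    constructor
    · intro M hM
      change (⨅ M ∈ s, M.1 : AddSubgroup E) ≤ M.1
      exact iInf₂_le M hM
    · intro N hN
      change N.1 ≤ (⨅ M ∈ s, M.1 : AddSubgroup E)
      exact le_iInf₂ fun M hM => hN hM)

section main

variable [IsUltrametricDist E] [CompleteSpace E] {X : Type u} (e : X ≃ X0 E)

/-- the map to local monoids -/
def toM (A : CG E) : LocalMonoid X := monOf e A.1 A.2

/-- the map to local groups -/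
def toG (A : CG E) : LocalGroup X := grOf e A.1 A.2

theorem toM_le {A B : CG E} : toM e A ≤ toM e B ↔ A ≤ B := by
  constructor
  · intro h g hg
    obtain ⟨g', hg', h4⟩ := h (show actX e g ∈ (toM e A).1 from ⟨g, hg, rfl⟩)
    rw [actX_inj e h4] at hg'
    exact hg'
  · rintro h f ⟨g, hg, rfl⟩
    exact ⟨g, h hg, rfl⟩

theorem toG_le {A B : CG E} : toG e A ≤ toG e B ↔ A ≤ B := by
  constructor
  · intro h g hg
    obtain ⟨g', hg', h4⟩ := h (show actP e g ∈ (toG e A).1 from ⟨g, hg, rfl⟩)
    rw [actP_inj e h4] at hg'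
    exact hg'
  · rintro h f ⟨g, hg, rfl⟩
    exact ⟨g, h hg, rfl⟩

/-- the local monoids below the monoid of all translations which are closed under inverses come
from closed subgroups -/
theorem exists_toM (N : LocalMonoid X) (A B : CG E) (hA : toM e A ≤ N) (hB : toM e B ≤ N) :
    toM e (A ⊔ B) ≤ N := by
  -- the set of the elements whose translation and inverse translation are in `N`
  have hcl : IsClosed {g : E | (actX e g : X → X) ∈ N.1 ∧ (actX e (-g) : X → X) ∈ N.1} := by
    let _ : TopologicalSpace X := ⊥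
    have _ : DiscreteTopology X := ⟨rfl⟩
    have hc : Continuous (fun g : E => (actX e g : X → X)) := by
      apply continuous_pi
      intro x
      apply continuous_discrete_rng.2
      intro y
      rw [Metric.isOpen_iff]
      intro g hg
      refine ⟨(1 / 2 : ℝ) ^ (e x).1, by positivity, ?_⟩
      intro h hh
      rw [Metric.mem_ball, dist_eq_norm] at hh
      have h1 : actX e g x = y := hg
      change actX e h x = y
      rw [← h1]
      simp only [actX]
      congr 1
      simp only [act]
      congr 2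
      rw [QuotientAddGroup.eq, neg_add_eq_sub, ← neg_sub, neg_mem_iff]
      exact hh.le
    have h1 : IsClosed {g : E | (actX e g : X → X) ∈ N.1} := N.2.preimage hc
    have h2 : IsClosed {g : E | (actX e (-g) : X → X) ∈ N.1} := N.2.preimage (hc.comp continuous_neg)
    exact h1.inter h2
  let C : CG E := ⟨{ carrier := {g : E | (actX e g : X → X) ∈ N.1 ∧ (actX e (-g) : X → X) ∈ N.1}
                     zero_mem' := by
                      constructor
                      · rw [actX_zero]; exact N.1.one_mem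
                      · rw [neg_zero, actX_zero]; exact N.1.one_mem
                     add_mem' := by
                      rintro a b ⟨h1, h2⟩ ⟨h3, h4⟩
                      refine ⟨?_, ?_⟩
                      · rw [actX_add]; exact N.1.mul_mem h1 h3
                      · rw [neg_add, actX_add]; exact N.1.mul_mem h2 h4
                     neg_mem' := by
                      rintro a ⟨h1, h2⟩
                      refine ⟨h2, ?_⟩
                      rw [neg_neg]; exact h1 }, hcl⟩
  have h1 : A ≤ C := fun g hg => ⟨hA ⟨g, hg, rfl⟩, hA ⟨-g, neg_mem hg, rfl⟩⟩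
  have h2 : B ≤ C := fun g hg => ⟨hB ⟨g, hg, rfl⟩, hB ⟨-g, neg_mem hg, rfl⟩⟩
  have h3 : A ⊔ B ≤ C := sup_le h1 h2
  rintro f ⟨g, hg, rfl⟩
  exact (h3 hg).1

/-- the elements whose translation belongs to a locally closed group -/
def ofG (N : LocalGroup X) : CG E :=
  ⟨{ carrier := {g : E | (actP e g : Equiv.Perm X) ∈ N.1}
     zero_mem' := by
      change actP e (0 : E) ∈ N.1
      rw [actP_zero]; exact N.1.one_mem
     add_mem' := by
      intro a b h1 h2
      change actP e (a + b) ∈ N.1
      rw [actP_add]; exact N.1.mul_mem h1 h2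
     neg_mem' := by
      intro a h1
      change actP e (-a) ∈ N.1
      rw [actP_neg]; exact N.1.inv_mem h1 }, by
    change IsClosed {g : E | (actP e g : Equiv.Perm X) ∈ N.1}
    let _ : TopologicalSpace X := ⊥
    have _ : DiscreteTopology X := ⟨rfl⟩
    have hc : Continuous (fun g : E => (actX e g : X → X)) := by
      apply continuous_pi
      intro x
      apply continuous_discrete_rng.2
      intro y
      rw [Metric.isOpen_iff]
      intro g hg
      refine ⟨(1 / 2 : ℝ) ^ (e x).1, by positivity, ?_⟩
      intro h hh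
      rw [Metric.mem_ball, dist_eq_norm] at hh
      have h1 : actX e g x = y := hg
      change actX e h x = y
      rw [← h1]
      simp only [actX]
      congr 1
      simp only [act]
      congr 2
      rw [QuotientAddGroup.eq, neg_add_eq_sub, ← neg_sub, neg_mem_iff]
      exact hh.le
    have hc' : @Continuous E (Equiv.Perm X) _ (symTop X) (fun g : E => actP e g) :=
      continuous_induced_rng.2 hc
    exact @IsClosed.preimage E (Equiv.Perm X) _ (symTop X) _ hc' _ N.2⟩

/-- the join of two translation groups -/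
theorem exists_toG (N : LocalGroup X) (A B : CG E) (hA : toG e A ≤ N) (hB : toG e B ≤ N) :
    toG e (A ⊔ B) ≤ N := by
  have h1 : A ≤ ofG e N := fun g hg => hA ⟨g, hg, rfl⟩
  have h2 : B ≤ ofG e N := fun g hg => hB ⟨g, hg, rfl⟩
  have h3 : A ⊔ B ≤ ofG e N := sup_le h1 h2
  rintro f ⟨g, hg, rfl⟩
  exact h3 hg

theorem mem_inf {A B : CG E} {g : E} (hA : g ∈ A.1) (hB : g ∈ B.1) : g ∈ (A ⊓ B).1 := by
  let C : CG E := ⟨A.1 ⊓ B.1, A.2.inter B.2⟩
  have h1 : C ≤ A := fun x hx => hx.1
  have h2 : C ≤ B := fun x hx => hx.2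
  exact (le_inf h1 h2 : C ≤ A ⊓ B) ⟨hA, hB⟩

/-- the closed subgroups form a sublattice of the lattice of local monoids -/
def homM : LatticeHom (CG E) (LocalMonoid X) where
  toFun := toM e
  map_sup' A B := le_antisymm
    (exists_toM e _ A B le_sup_left le_sup_right)
    (sup_le ((toM_le e).2 le_sup_left) ((toM_le e).2 le_sup_right))
  map_inf' A B := by
    apply le_antisymm
    · exact le_inf ((toM_le e).2 inf_le_left) ((toM_le e).2 inf_le_right)
    · intro f hf
      obtain ⟨g, hg, hgf⟩ : f ∈ (toM e A).1 := (inf_le_left : _ ≤ toM e A) hf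
      obtain ⟨g', hg', hgf'⟩ : f ∈ (toM e B).1 := (inf_le_right : _ ≤ toM e B) hf
      have hgg : g = g' := actX_inj e (hgf.trans hgf'.symm)
      exact ⟨g, mem_inf hg (hgg ▸ hg'), hgf⟩

theorem homM_injective : Function.Injective (homM (E := E) e) := by
  intro A B h
  have h' : toM e A = toM e B := h
  exact le_antisymm ((toM_le e).1 h'.le) ((toM_le e).1 h'.ge)

/-- the closed subgroups form a sublattice of the lattice of locally closed groups -/
def homG : LatticeHom (CG E) (LocalGroup X) where
  toFun := toG e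
  map_sup' A B := le_antisymm
    (exists_toG e _ A B le_sup_left le_sup_right)
    (sup_le ((toG_le e).2 le_sup_left) ((toG_le e).2 le_sup_right))
  map_inf' A B := by
    apply le_antisymm
    · exact le_inf ((toG_le e).2 inf_le_left) ((toG_le e).2 inf_le_right)
    · intro f hf
      obtain ⟨g, hg, hgf⟩ : f ∈ (toG e A).1 := (inf_le_left : _ ≤ toG e A) hf
      obtain ⟨g', hg', hgf'⟩ : f ∈ (toG e B).1 := (inf_le_right : _ ≤ toG e B) hf
      have hgg : g = g' := actP_inj e (hgf.trans hgf'.symm)
      exact ⟨g, mem_inf hg (hgg ▸ hg'), hgf⟩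

theorem homG_injective : Function.Injective (homG (E := E) e) := by
  intro A B h
  have h' : toG e A = toG e B := h
  exact le_antisymm ((toG_le e).1 h'.le) ((toG_le e).1 h'.ge)

end main

theorem exists_equiv (E : Type w) [NormedAddCommGroup E] [IsUltrametricDist E]
    [TopologicalSpace.SeparableSpace E] (X : Type u) [Countable X] [Infinite X] :
    Nonempty (X ≃ X0 E) := by
  have : Infinite (X0 E) := by
    apply Infinite.of_injective (fun n : ℕ => (⟨n, 0⟩ : X0 E))
    intro a b h
    exact congrArg Sigma.fst h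
  have : ∀ n, Countable (E ⧸ U E n) := countable_quot E
  obtain ⟨e1⟩ := nonempty_denumerable X
  obtain ⟨e2⟩ := nonempty_denumerable (X0 E)
  exact ⟨(Denumerable.eqv X).trans (Denumerable.eqv (X0 E)).symm⟩

/-- **The engine.** The lattice of closed subgroups of a complete separable ultrametric normed group
embeds into the lattice of local monoids. -/
theorem engineM (E : Type w) [NormedAddCommGroup E] [IsUltrametricDist E] [CompleteSpace E]
    [TopologicalSpace.SeparableSpace E] (X : Type u) [Countable X] [Infinite X] :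
    ∃ f : LatticeHom (CG E) (LocalMonoid X), Function.Injective f := by
  obtain ⟨e⟩ := exists_equiv E X
  exact ⟨homM e, homM_injective e⟩

/-- **The engine.** The lattice of closed subgroups of a complete separable ultrametric normed group
is isomorphic to a principal ideal of the lattice of locally closed groups. -/
theorem engineG (E : Type w) [NormedAddCommGroup E] [IsUltrametricDist E] [CompleteSpace E]
    [TopologicalSpace.SeparableSpace E] (X : Type u) [Countable X] [Infinite X] :
    ∃ f : LatticeHom (CG E) (LocalGroup X), Function.Injective f ∧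
      Set.range f = Set.Iic (f ⊤) := by
  obtain ⟨e⟩ := exists_equiv E X
  refine ⟨homG e, homG_injective e, ?_⟩
  apply Set.Subset.antisymm
  · rintro _ ⟨A, rfl⟩
    exact (toG_le e).2 (le_top : A ≤ ⊤)
  · intro N hN
    refine ⟨ofG e N, ?_⟩
    change toG e (ofG e N) = N
    apply le_antisymm
    · rintro f ⟨g, hg, rfl⟩
      exact hg
    · intro f hf
      obtain ⟨g, hg, hgf⟩ : f ∈ (toG e (⊤ : CG E)).1 := hN hf
      refine ⟨g, ?_, hgf⟩
      change actP e g ∈ N.1
      rw [hgf]; exact hf

/-- maps into the lattice of closed subgroups -/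
theorem mapCG {L : Type v} [Lattice L] {E : Type w} [NormedAddCommGroup E] (Φ : L → AddSubgroup E)
    (hcl : ∀ a, IsClosed (Φ a : Set E)) (hle : ∀ a b, Φ a ≤ Φ b ↔ a ≤ b)
    (hinf : ∀ a b, Φ a ⊓ Φ b ≤ Φ (a ⊓ b)) (hsup : ∀ a b, Φ (a ⊔ b) ≤ Φ a ⊔ Φ b) :
    ∃ f : LatticeHom L (CG E), Function.Injective f := by
  let Ψ : L → CG E := fun a => ⟨Φ a, hcl a⟩
  refine ⟨⟨⟨Ψ, fun a b => ?_⟩, fun a b => ?_⟩, ?_⟩
  · apply le_antisymm
    · intro g hg
      obtain ⟨u, hu, w, hw, rfl⟩ := AddSubgroup.mem_sup.1 (hsup a b hg)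
      refine AddSubgroup.add_mem _ ?_ ?_
      · exact (le_sup_left : Ψ a ≤ Ψ a ⊔ Ψ b) hu
      · exact (le_sup_right : Ψ b ≤ Ψ a ⊔ Ψ b) hw
    · apply sup_le
      · exact (hle _ _).2 le_sup_left
      · exact (hle _ _).2 le_sup_right
  · apply le_antisymm
    · apply le_inf
      · exact (hle _ _).2 inf_le_left
      · exact (hle _ _).2 inf_le_right
    · intro g hg
      exact hinf a b ⟨(inf_le_left : Ψ a ⊓ Ψ b ≤ Ψ a) hg, (inf_le_right : Ψ a ⊓ Ψ b ≤ Ψ b) hg⟩
  · intro a b hab
    have hab' : Φ a = Φ b := congrArg Subtype.val hab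
    exact le_antisymm ((hle _ _).1 hab'.le) ((hle _ _).1 hab'.ge)

end Pool.Agent.Y407.LG
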