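import Mathlib

set_option autoImplicit false

/-! Complete separable ultrametric fields which contain a copy of every field of the same
characteristic with at most continuum many elements. -/

universe u v w

namespace Pool.Agent.Y407.LG

open Set Filter Topology Polynomial Cardinal
open scoped NNReal

/-- the algebraic closure of a separable complete field is separable -/
theorem sep_of_dense (k : Type) [NormedField k] (k0 : Type) [Field k0] [Countable k0]
    [Algebra k0 k] (hd : DenseRange (algebraMap k0 k))
    (L : Type) [NormedField L] [NormedAlgebra k L] [Algebra.IsAlgebraic k L] [IsAlgClosed L] :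
    TopologicalSpace.SeparableSpace L := by
  have hdense : Dense (⋃ g : k0[X], {b : L | g ≠ 0 ∧ b ∈ (g.map (algebraMap k0 k)).aroots L}) := by
    rw [Metric.dense_iff]
    intro a r hr
    set f : k[X] := minpoly k a with hf
    have hint : IsIntegral k a := (Algebra.IsAlgebraic.isAlgebraic a).isIntegral
    have fmon : f.Monic := minpoly.monic hint
    have fa : f.aeval a = 0 := minpoly.aeval _ _
    have fdeg : f.natDegree ≠ 0 := (minpoly.natDegree_pos hint).ne'
    have hm : 0 < max ‖a‖ 1 := lt_max_of_lt_right one_pos
    set ε : ℝ := (r / max ‖a‖ 1) ^ f.natDegree / (f.natDegree + 1) with hεd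
    have hε : ε > 0 := by positivity
    obtain ⟨g, gmon, gdeg, gcoeff⟩ :=
      exists_monic_and_natDegree_eq_and_norm_map_algebraMap_coeff_sub_lt hd fmon hε
    obtain ⟨b, hb, hab⟩ := exists_aroots_norm_sub_lt_of_norm_coeff_sub_lt (L := L)
        hε fa fmon (gmon.map _) (gdeg ▸ (g.natDegree_map _)) gcoeff
        (IsAlgClosed.splits _)
    refine ⟨b, ?_, Set.mem_iUnion.2 ⟨g, gmon.ne_zero, hb⟩⟩
    rw [Metric.mem_ball, dist_comm, dist_eq_norm]
    refine lt_of_lt_of_le hab (le_of_eq ?_)
    have h1 : ((f.natDegree : ℝ) + 1) * ε = (r / max ‖a‖ 1) ^ f.natDegree := by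
      rw [hεd]
      field_simp
    rw [h1, ← Real.rpow_natCast, ← Real.rpow_mul (by positivity),
      mul_inv_cancel₀ (by exact_mod_cast fdeg), Real.rpow_one, div_mul_cancel₀ _ hm.ne']
  refine ⟨⟨_, ?_, hdense⟩⟩
  have : Countable k0[X] := by
    have h1 := Polynomial.cardinalMk_le_max (R := k0)
    have h2 : #k0 ≤ ℵ₀ := mk_le_aleph0
    exact mk_le_aleph0_iff.1 (h1.trans (max_le h2 le_rfl))
  refine Set.countable_iUnion fun g => ?_
  classical
  refine (((g.map (algebraMap k0 k)).aroots L).toFinset.finite_toSet.subset ?_).countable
  rintro b ⟨_, hb⟩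
  simpa using hb

/-- a normed field of characteristic `p` is ultrametric -/
theorem ultra_of_charP (k : Type) [NormedField k] (p : ℕ) [Fact p.Prime] [CharP k p] :
    IsUltrametricDist k := by
  refine IsUltrametricDist.isUltrametricDist_of_forall_norm_natCast_le_one fun n => ?_
  by_cases h : (n : k) = 0
  · rw [h, norm_zero]; exact zero_le_one
  · have h1 : (n : k) ^ (p - 1) = 1 := by
      have h2 : ((n : ZMod p) : ZMod p) ≠ 0 := by
        intro h0
        apply h
        have := congrArg (ZMod.castHom dvd_rfl k) h0
        simpa using this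
      have h3 := ZMod.pow_card_sub_one_eq_one h2
      have := congrArg (ZMod.castHom dvd_rfl k) h3
      simpa using this
    have h4 : ‖(n : k)‖ ^ (p - 1) = 1 := by rw [← norm_pow, h1, norm_one]
    have hp : p - 1 ≠ 0 := by
      have := (Fact.out : p.Prime).two_le
      omega
    exact ((pow_eq_one_iff_of_nonneg (norm_nonneg _) hp).1 h4).le

/-- fields of the same characteristic embed -/
theorem exists_embedding' (A : Type w) [Field A] [IsAlgClosed A] (hA : continuum.{w} ≤ #A) (p : ℕ)
    [CharP A p] (F : Type v) [Field F] [CharP F p] (hF : #F ≤ continuum) :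
    Nonempty (F →+* A) := by
  have hA' : continuum.{max v w} ≤ lift.{v} #A := by
    have := lift_le.{v}.2 hA
    rwa [lift_continuum] at this
  have hF' : lift.{w} #F ≤ lift.{v} #A := by
    have := lift_le.{w}.2 hF
    rw [lift_continuum] at this
    exact this.trans hA'
  have hmv : #(MvPolynomial A F) = lift.{v} #A := by
    rw [MvPolynomial.cardinalMk_eq_max_lift, sup_eq_right.2 hF', sup_eq_left]
    exact aleph0_le_continuum.trans hA'
  let R := FractionRing (MvPolynomial A F)
  have hR : #R = lift.{v} #A := by
    rw [show #R = #(MvPolynomial A F) from mk_fractionRing _, hmv]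
  let L := AlgebraicClosure R
  have hL1 : #R ≤ #L := mk_le_of_injective (algebraMap R L).injective
  have hL2 : #L ≤ max #R ℵ₀ := Algebra.IsAlgebraic.cardinalMk_le_max R L
  have hL : #L = lift.{v} #A := by
    rw [hR] at hL1 hL2
    refine le_antisymm (hL2.trans (max_le le_rfl ?_)) hL1
    exact aleph0_le_continuum.trans hA'
  have hch : CharP L p := charP_of_injective_ringHom
    ((algebraMap R L).comp ((algebraMap (MvPolynomial A F) R).comp MvPolynomial.C)).injective p
  have he : Nonempty (L ≃ A) := by
    rw [← lift_mk_eq']
    rw [hL, lift_lift, lift_umax]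
  have hL0 : ℵ₀ < #L := by
    rw [hL]
    exact aleph0_lt_continuum.trans_le hA'
  obtain ⟨φ⟩ := IsAlgClosed.ringEquiv_of_equiv_of_char_eq p hL0 he
  exact ⟨(φ : L →+* A).comp ((algebraMap R L).comp
    ((algebraMap (MvPolynomial A F) R).comp MvPolynomial.C))⟩

/-- the fields of a given characteristic with at most continuum many elements embed into one
complete separable ultrametric field -/
theorem bigfield (k : Type) [NontriviallyNormedField k] [CompleteSpace k] [IsUltrametricDist k]
    (k0 : Type) [Field k0] [Countable k0] [Algebra k0 k] (hd : DenseRange (algebraMap k0 k))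
    (p : ℕ) [CharP k p] (F : Type v) [Field F] [CharP F p] (hF : #F ≤ continuum) :
    ∃ (A : Type) (_ : NormedField A), CompleteSpace A ∧ IsUltrametricDist A ∧
      TopologicalSpace.SeparableSpace A ∧ Nonempty (F →+* A) := by
  let L := AlgebraicClosure k
  let i1 : NormedField L := spectralNorm.normedField k L
  let i2 : NormedAlgebra k L := spectralNorm.normedAlgebra k L
  have i3 : Algebra.IsAlgebraic k L := AlgebraicClosure.isAlgebraic k
  have i4 : TopologicalSpace.SeparableSpace L := sep_of_dense k k0 hd L
  have i5 : IsUltrametricDist L := IsUltrametricDist.isUltrametricDist_of_forall_norm_add_le_max_norm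
    (isNonarchimedean_spectralNorm (K := k) (L := L))
  have hL : continuum ≤ #L := (continuum_le_cardinal_of_nontriviallyNormedField k).trans
    (mk_le_of_injective (algebraMap k L).injective)
  have i6 : CharP L p := charP_of_injective_ringHom (algebraMap k L).injective p
  obtain ⟨φ⟩ := exists_embedding' L hL p F hF
  refine ⟨UniformSpace.Completion L, inferInstance, inferInstance, ?_, inferInstance, ?_⟩
  · exact IsUltrametricDist.of_normedAlgebra L
  · exact ⟨(algebraMap L (UniformSpace.Completion L)).comp φ⟩

/-- the `X`-adic absolute value on the field of rational functions over the field with `p`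
elements -/
noncomputable def absP (p : ℕ) [Fact p.Prime] :
    AbsoluteValue (FractionRing (Polynomial (ZMod p))) ℝ :=
  (Polynomial.idealX (ZMod p)).adicAbv (K := FractionRing (Polynomial (ZMod p)))
    (b := 2) one_lt_two

theorem case_charP (p : ℕ) [Fact p.Prime] (F : Type v) [Field F] [CharP F p]
    (hF : #F ≤ continuum) :
    ∃ (A : Type) (_ : NormedField A), CompleteSpace A ∧ IsUltrametricDist A ∧
      TopologicalSpace.SeparableSpace A ∧ Nonempty (F →+* A) := by
  let W := WithAbs (absP p)
  let k := UniformSpace.Completion W
  have i0 : CharP k p := charP_of_injective_ringHom (((algebraMap W k).comp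
    ((WithAbs.equiv (absP p)).symm.toRingHom.comp ((algebraMap (Polynomial (ZMod p))
      (FractionRing (Polynomial (ZMod p)))).comp Polynomial.C))).injective) p
  have hX0 : algebraMap (Polynomial (ZMod p)) (FractionRing (Polynomial (ZMod p))) Polynomial.X
      ≠ 0 := by
    intro h
    exact Polynomial.X_ne_zero ((IsFractionRing.injective (Polynomial (ZMod p))
      (FractionRing (Polynomial (ZMod p)))) (h.trans (map_zero _).symm))
  have hX1 : absP p (algebraMap (Polynomial (ZMod p)) (FractionRing (Polynomial (ZMod p)))
      Polynomial.X) < 1 := by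
    unfold absP
    rw [IsDedekindDomain.HeightOneSpectrum.adicAbv_coe_lt_one_iff, Polynomial.idealX_span]
    exact Ideal.mem_span_singleton_self _
  let i1 : NontriviallyNormedField k :=
    { (inferInstance : NormedField k) with
      non_trivial := by
        refine ⟨((WithAbs.toAbs (absP p) (algebraMap (Polynomial (ZMod p))
          (FractionRing (Polynomial (ZMod p))) Polynomial.X)⁻¹ : W) : k), ?_⟩
        rw [UniformSpace.Completion.norm_coe, WithAbs.norm_toAbs_eq, map_inv₀]
        exact (one_lt_inv₀ ((absP p).pos hX0)).2 hX1 }
  have i2 : CompleteSpace k := inferInstance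
  have i3 : IsUltrametricDist k := ultra_of_charP k p
  have i4 : Countable W := by
    have h1 : #(Polynomial (ZMod p)) ≤ ℵ₀ :=
      Polynomial.cardinalMk_le_max.trans (max_le mk_le_aleph0 le_rfl)
    have h2 : #(FractionRing (Polynomial (ZMod p))) ≤ ℵ₀ := by rwa [mk_fractionRing]
    have h3 : Countable (FractionRing (Polynomial (ZMod p))) := mk_le_aleph0_iff.1 h2
    exact (WithAbs.equiv (absP p)).injective.countable
  have hd : DenseRange (algebraMap W k) := UniformSpace.Completion.denseRange_coe
  exact bigfield k W hd p F hF

/-- the prime `2` -/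
local instance : Fact (Nat.Prime 2) := ⟨Nat.prime_two⟩

theorem case_charZero (F : Type v) [Field F] [CharP F 0] (hF : #F ≤ continuum) :
    ∃ (A : Type) (_ : NormedField A), CompleteSpace A ∧ IsUltrametricDist A ∧
      TopologicalSpace.SeparableSpace A ∧ Nonempty (F →+* A) := by
  have hd : DenseRange (algebraMap ℚ ℚ_[2]) := by
    rw [Metric.denseRange_iff]
    intro x r hr
    obtain ⟨q, hq⟩ := Padic.rat_dense (p := 2) x (ε := r) hr
    refine ⟨q, ?_⟩
    rw [dist_eq_norm]
    simpa using hq
  have : CharP ℚ_[2] 0 := CharP.ofCharZero _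
  exact bigfield ℚ_[2] ℚ hd 0 F hF

/-- **Every field with at most continuum many elements is a subfield of a complete separable
ultrametric normed field.** -/
theorem exists_big (F : Type v) [Field F] (hF : #F ≤ continuum) :
    ∃ (A : Type) (_ : NormedField A), CompleteSpace A ∧ IsUltrametricDist A ∧
      TopologicalSpace.SeparableSpace A ∧ Nonempty (F →+* A) := by
  obtain ⟨p, hp⟩ := CharP.exists F
  rcases CharP.char_is_prime_or_zero F p with h | h
  · have : Fact p.Prime := ⟨h⟩
    exact case_charP p F hF
  · subst h
    exact case_charZero F hF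

end Pool.Agent.Y407.LG
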