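import Mathlib

set_option autoImplicit false

/-! Extension of scalars of subspaces of `F^n`, as closed subgroups of `C^n`. -/

universe u v w

namespace Pool.Agent.Y407.LG

open Set Filter Topology

section lin

variable {F : Type v} [Field F] {C : Type w} [NormedField C] (σ : F →+* C) {n : ℕ}

/-- the extension of a linear functional -/
def ext (l : Module.Dual F (Fin n → F)) (x : Fin n → C) : C :=
  ∑ i, σ (l (Pi.single i 1)) * x i

theorem ext_add (l : Module.Dual F (Fin n → F)) (x y : Fin n → C) :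
    ext σ l (x + y) = ext σ l x + ext σ l y := by
  simp only [ext, Pi.add_apply, mul_add, Finset.sum_add_distrib]

theorem ext_smul (l : Module.Dual F (Fin n → F)) (c : C) (x : Fin n → C) :
    ext σ l (c • x) = c * ext σ l x := by
  simp only [ext, Pi.smul_apply, smul_eq_mul, Finset.mul_sum]
  exact Finset.sum_congr rfl fun i _ => by ring

theorem ext_zero (l : Module.Dual F (Fin n → F)) : ext σ l 0 = 0 := by
  simp [ext]

theorem ext_neg (l : Module.Dual F (Fin n → F)) (x : Fin n → C) : ext σ l (-x) = -ext σ l x := by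
  simp [ext]

theorem ext_sum (l : Module.Dual F (Fin n → F)) {ι : Type} (s : Finset ι) (x : ι → Fin n → C) :
    ext σ l (∑ j ∈ s, x j) = ∑ j ∈ s, ext σ l (x j) := by
  classical
  induction s using Finset.induction_on with
  | empty => simp [ext_zero]
  | insert a s ha ih => rw [Finset.sum_insert ha, Finset.sum_insert ha, ext_add, ih]

theorem add_ext (l l' : Module.Dual F (Fin n → F)) (x : Fin n → C) :
    ext σ (l + l') x = ext σ l x + ext σ l' x := by
  simp only [ext, LinearMap.add_apply, map_add, add_mul, Finset.sum_add_distrib]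

theorem apply_eq_sum (l : Module.Dual F (Fin n → F)) (v : Fin n → F) :
    l v = ∑ i, v i * l (Pi.single i 1) := by
  conv_lhs => rw [pi_eq_sum_univ' v]
  rw [map_sum]
  refine Finset.sum_congr rfl fun i _ => ?_
  rw [map_smul, smul_eq_mul]

theorem ext_map (l : Module.Dual F (Fin n → F)) (v : Fin n → F) :
    ext σ l (fun i => σ (v i)) = σ (l v) := by
  rw [apply_eq_sum l v, map_sum]
  refine Finset.sum_congr rfl fun i _ => ?_
  rw [map_mul, mul_comm]

/-- the extension of scalars of a subspace, defined by equations -/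
def Z (V : Submodule F (Fin n → F)) : AddSubgroup (Fin n → C) where
  carrier := {x | ∀ l ∈ V.dualAnnihilator, ext σ l x = 0}
  zero_mem' := fun l _ => ext_zero σ l
  add_mem' := fun {x y} hx hy l hl => by rw [ext_add, hx l hl, hy l hl, add_zero]
  neg_mem' := fun {x} hx l hl => by rw [ext_neg, hx l hl, neg_zero]

theorem mem_Z {V : Submodule F (Fin n → F)} {x : Fin n → C} :
    x ∈ Z σ V ↔ ∀ l ∈ V.dualAnnihilator, ext σ l x = 0 := Iff.rfl

theorem Z_closed (V : Submodule F (Fin n → F)) : IsClosed (Z σ V : Set (Fin n → C)) := by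
  have : (Z σ V : Set (Fin n → C)) = ⋂ l ∈ V.dualAnnihilator, {x | ext σ l x = 0} := by
    ext x
    simp [mem_Z]
  rw [this]
  refine isClosed_biInter fun l _ => isClosed_eq ?_ continuous_const
  unfold ext
  fun_prop

theorem map_mem_Z {V : Submodule F (Fin n → F)} {v : Fin n → F} :
    (fun i => σ (v i)) ∈ Z σ V ↔ v ∈ V := by
  rw [mem_Z, ← Subspace.forall_mem_dualAnnihilator_apply_eq_zero_iff V v]
  refine forall₂_congr fun l _ => ?_
  rw [ext_map, map_eq_zero]

theorem Z_le {V W : Submodule F (Fin n → F)} : Z σ V ≤ Z σ W ↔ V ≤ W := by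
  constructor
  · intro h v hv
    exact (map_mem_Z σ).1 (h ((map_mem_Z σ).2 hv))
  · intro h x hx l hl
    exact hx l (Submodule.dualAnnihilator_anti h hl)

theorem Z_inf (V W : Submodule F (Fin n → F)) : Z σ V ⊓ Z σ W ≤ Z σ (V ⊓ W) := by
  rintro x ⟨h1, h2⟩ l hl
  rw [Subspace.dualAnnihilator_inf_eq] at hl
  obtain ⟨l1, hl1, l2, hl2, rfl⟩ := Submodule.mem_sup.1 hl
  rw [add_ext, h1 l1 hl1, h2 l2 hl2, add_zero]

theorem Z_sup (V W : Submodule F (Fin n → F)) : Z σ (V ⊔ W) ≤ Z σ V ⊔ Z σ W := by
  intro x hx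
  obtain ⟨g, hg⟩ := (V ⊔ W).subtype.exists_leftInverse_of_injective
    (Submodule.ker_subtype (V ⊔ W))
  set P : (Fin n → F) →ₗ[F] (Fin n → F) := (V ⊔ W).subtype ∘ₗ g with hP
  have hPv : ∀ v ∈ V ⊔ W, P v = v := by
    intro v hv
    have := LinearMap.congr_fun hg ⟨v, hv⟩
    simp only [hP, LinearMap.comp_apply]
    simp only [LinearMap.comp_apply, LinearMap.id_apply, Submodule.subtype_apply] at this
    rw [this]
    rfl
  have hPmem : ∀ v, P v ∈ V ⊔ W := fun v => (g v).2
  have key : ∀ i, x i = ∑ j, σ (P (Pi.single j 1) i) * x j := by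
    intro i
    have h1 : (LinearMap.proj i : (Fin n → F) →ₗ[F] F) ∘ₗ (LinearMap.id - P) ∈
        (V ⊔ W).dualAnnihilator := by
      rw [Submodule.mem_dualAnnihilator]
      intro v hv
      simp [hPv v hv]
    have h2 := hx _ h1
    unfold ext at h2
    simp only [LinearMap.comp_apply, LinearMap.sub_apply, LinearMap.id_apply,
      LinearMap.proj_apply, map_sub, sub_mul, Finset.sum_sub_distrib] at h2
    have h3 : ∑ j, σ ((Pi.single j 1 : Fin n → F) i) * x j = x i := by
      rw [Finset.sum_eq_single i]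
      · simp
      · intro j _ hj
        rw [Pi.single_eq_of_ne hj.symm]; simp
      · intro h; exact absurd (Finset.mem_univ i) h
    rw [h3] at h2
    exact sub_eq_zero.1 h2
  have hdec : ∀ j : Fin n, ∃ v ∈ V, ∃ w ∈ W, v + w = P (Pi.single j 1) := fun j =>
    Submodule.mem_sup.1 (hPmem _)
  choose v hv w hw hvw using hdec
  rw [AddSubgroup.mem_sup]
  refine ⟨∑ j, x j • (fun i => σ (v j i)), ?_, ∑ j, x j • (fun i => σ (w j i)), ?_, ?_⟩
  · intro l hl
    rw [ext_sum]
    refine Finset.sum_eq_zero fun j _ => ?_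
    rw [ext_smul, (map_mem_Z σ).2 (hv j) l hl, mul_zero]
  · intro l hl
    rw [ext_sum]
    refine Finset.sum_eq_zero fun j _ => ?_
    rw [ext_smul, (map_mem_Z σ).2 (hw j) l hl, mul_zero]
  · funext i
    rw [key i, ← Finset.sum_add_distrib, Finset.sum_apply]
    refine Finset.sum_congr rfl fun j _ => ?_
    simp only [Pi.add_apply, Pi.smul_apply, smul_eq_mul]
    rw [← hvw j, Pi.add_apply, map_add]
    ring

end lin

end Pool.Agent.Y407.LG
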