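import Pool.Agent.W344.LocalLat
import Pool.Agent.Y407.LG.Eng
import Pool.Agent.Y407.LG.Lin
import Pool.Agent.Y407.LG.Fld
import Pool.Agent.Y407.LG.Crd

set_option autoImplicit false

/-! Which subspace lattices embed into the lattices of local monoids and of locally closed
permutation groups on a countable set. -/

universe u v w

namespace Pool.Agent.Y407.LG

open Set Cardinal Pool.Agent.W344.LocalLat

/-- subspace lattices embed as soon as the field embeds into a complete separable ultrametric
field -/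
theorem sub_embeds (A : Type w) [NormedField A] [CompleteSpace A] [IsUltrametricDist A]
    [TopologicalSpace.SeparableSpace A] (F : Type v) [Field F] (σ : F →+* A) (n : ℕ)
    (X : Type u) [Countable X] [Infinite X] :
    (∃ f : LatticeHom (Submodule F (Fin n → F)) (LocalGroup X), Function.Injective f) ∧
    (∃ f : LatticeHom (Submodule F (Fin n → F)) (LocalMonoid X), Function.Injective f) := by
  obtain ⟨f, hf⟩ := mapCG (E := Fin n → A) (fun V : Submodule F (Fin n → F) => Z σ V)
    (Z_closed σ) (fun _ _ => Z_le σ) (Z_inf σ) (Z_sup σ)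
  obtain ⟨g, hg, _⟩ := engineG (Fin n → A) X
  obtain ⟨h, hh⟩ := engineM (Fin n → A) X
  exact ⟨⟨g.comp f, hg.comp hf⟩, ⟨h.comp f, hh.comp hf⟩⟩

/-- subspace lattices of finite-dimensional spaces over a field with at most continuum many
elements -/
theorem sub_embeds' (F : Type v) [Field F] (hF : #F ≤ continuum)
    (V : Type w) [AddCommGroup V] [Module F V] [Module.Finite F V] (X : Type u) [Countable X]
    [Infinite X] :
    (∃ f : LatticeHom (Submodule F V) (LocalGroup X), Function.Injective f) ∧
    (∃ f : LatticeHom (Submodule F V) (LocalMonoid X), Function.Injective f) := by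
  obtain ⟨A, i1, i2, i3, i4, ⟨σ⟩⟩ := exists_big F hF
  let b := Module.finBasis F V
  let φ : Submodule F V ≃o Submodule F (Fin (Module.finrank F V) → F) :=
    Submodule.orderIsoMapComap b.equivFun
  let h2 : LatticeHom (Submodule F V) (Submodule F (Fin (Module.finrank F V) → F)) :=
    { toFun := φ
      map_sup' := fun a b => map_sup φ a b
      map_inf' := fun a b => map_inf φ a b }
  have hh2 : Function.Injective h2 := φ.injective
  obtain ⟨⟨f, hf⟩, ⟨g, hg⟩⟩ := sub_embeds A F σ (Module.finrank F V) X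
  exact ⟨⟨f.comp h2, hf.comp hh2⟩, ⟨g.comp h2, hg.comp hh2⟩⟩

instance ultraKK : IsUltrametricDist (K × K) := by
  refine IsUltrametricDist.isUltrametricDist_of_forall_norm_add_le_max_norm ?_
  intro x y
  rw [Prod.norm_def, Prod.norm_def, Prod.norm_def]
  refine max_le ?_ ?_
  · refine (IsUltrametricDist.norm_add_le_max x.1 y.1).trans (max_le_max ?_ ?_)
    · exact le_max_left _ _
    · exact le_max_left _ _
  · refine (IsUltrametricDist.norm_add_le_max x.2 y.2).trans (max_le_max ?_ ?_)
    · exact le_max_right _ _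
    · exact le_max_right _ _

/-- the lattices `M_κ` -/
theorem M_embeds {M : Type v} [Lattice M] [BoundedOrder M]
    (hanti : IsAntichain (· ≤ ·) {a : M | a ≠ ⊥ ∧ a ≠ ⊤}) (hmid : ∃ a : M, a ≠ ⊥ ∧ a ≠ ⊤)
    (hcard : #{a : M // a ≠ ⊥ ∧ a ≠ ⊤} ≤ continuum) (X : Type u) [Countable X] [Infinite X] :
    (∃ f : LatticeHom M (LocalGroup X), Function.Injective f) ∧
    (∃ f : LatticeHom M (LocalMonoid X), Function.Injective f) := by
  have hanti' : ∀ a b : M, a ≠ ⊥ → b ≠ ⊤ → a ≤ b → a = b := by
    intro a b ha hb hab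
    by_contra hne
    have ha' : a ≠ ⊤ := by
      rintro rfl
      exact hb (top_le_iff.1 hab)
    have hb' : b ≠ ⊥ := by
      rintro rfl
      exact ha (le_bot_iff.1 hab)
    exact hanti ⟨ha, ha'⟩ ⟨hb', hb⟩ hne hab
  have hphi : ∃ φ : {a : M // a ≠ ⊥ ∧ a ≠ ⊤} → K, Function.Injective φ := by
    have h1 : continuum.{0} ≤ #K := continuum_le_cardinal_of_nontriviallyNormedField K
    have h2 : lift.{0} (#{a : M // a ≠ ⊥ ∧ a ≠ ⊤}) ≤ lift.{v} (#K) := by
      have := lift_le.{v}.2 h1
      rw [lift_continuum] at this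
      rw [lift_uzero]
      exact hcard.trans this
    obtain ⟨f⟩ := lift_mk_le'.1 h2
    exact ⟨f, f.injective⟩
  obtain ⟨φ, hφ⟩ := hphi
  obtain ⟨h1, h2, h3⟩ := F_spec hanti' φ hφ hmid
  have hle : ∀ a b : M, W344.LocalLat.F φ a ≤ W344.LocalLat.F φ b ↔ a ≤ b := by
    intro a b
    rw [← inf_eq_left, ← h2, h1.eq_iff, inf_eq_left]
  obtain ⟨f, hf⟩ := mapCG (E := K × K) (W344.LocalLat.F φ) (F_closed φ) hle
    (fun a b => (h2 a b).ge) (fun a b => (h3 a b).le)
  obtain ⟨g, hg, _⟩ := engineG (K × K) X
  obtain ⟨h, hh⟩ := engineM (K × K) X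
  exact ⟨⟨g.comp f, hg.comp hf⟩, ⟨h.comp f, hh.comp hf⟩⟩

theorem card_le_of_inj {L : Type v} {X : Type u} [Countable X]
    (h : (∃ f : L → LocalGroup X, Function.Injective f) ∨
      (∃ f : L → LocalMonoid X, Function.Injective f)) : #L ≤ continuum := by
  have h1 : lift.{u} (#L) ≤ continuum := by
    rcases h with ⟨f, hf⟩ | ⟨f, hf⟩
    · have := lift_mk_le_lift_mk_of_injective hf
      refine this.trans ?_
      have h2 := lift_le.{v}.2 (card_localGroup_le X)
      rwa [lift_continuum] at h2
    · have := lift_mk_le_lift_mk_of_injective hf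
      refine this.trans ?_
      have h2 := lift_le.{v}.2 (card_localMonoid_le X)
      rwa [lift_continuum] at h2
  rw [← lift_continuum.{u, v}] at h1
  exact lift_le.1 h1

end Pool.Agent.Y407.LG
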