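import Pool.Agent.Y407.LG.Main
import Pool.Agent.Y407.LG.Clo

set_option autoImplicit false

/-! Sublattices of finite products of subspace lattices embed into the lattice of local clones. -/

universe u v w

namespace Pool.Agent.Y407.LG

open Set Cardinal Pool.Agent.W344.LocalLat Pool.H845.LocClone

/-- the lattices that are representable by closed subgroups with closed sums -/
def Rep (L : Type v) [Lattice L] : Prop :=
  ∃ (E : Type) (_ : NormedAddCommGroup E) (_ : IsUltrametricDist E) (_ : CompleteSpace E)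
    (_ : TopologicalSpace.SeparableSpace E) (Φ : L → AddSubgroup E),
    (∀ a, IsClosed (Φ a : Set E)) ∧ (∀ a b, Φ a ≤ Φ b ↔ a ≤ b) ∧
    (∀ a b, Φ a ⊓ Φ b ≤ Φ (a ⊓ b)) ∧ (∀ a b, Φ (a ⊔ b) ≤ Φ a ⊔ Φ b)

theorem Rep.comp {L : Type v} {M : Type w} [Lattice L] [Lattice M] (h : Rep M)
    (g : LatticeHom L M) (hg : Function.Injective g) : Rep L := by
  obtain ⟨E, i1, i2, i3, i4, Φ, h1, h2, h3, h4⟩ := h
  refine ⟨E, i1, i2, i3, i4, fun a => Φ (g a), fun a => h1 _, ?_, ?_, ?_⟩
  · intro a b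
    rw [h2]
    constructor
    · intro h
      have : g (a ⊓ b) = g a := by rw [map_inf]; exact inf_eq_left.2 h
      exact inf_eq_left.1 (hg this)
    · intro h
      exact OrderHomClass.mono g h
  · intro a b
    change Φ (g a) ⊓ Φ (g b) ≤ Φ (g (a ⊓ b))
    rw [map_inf]
    exact h3 _ _
  · intro a b
    change Φ (g (a ⊔ b)) ≤ Φ (g a) ⊔ Φ (g b)
    rw [map_sup]
    exact h4 _ _

theorem Rep.pi {ι : Type} [Fintype ι] {L : ι → Type v} [∀ i, Lattice (L i)]
    (h : ∀ i, Rep (L i)) : Rep (∀ i, L i) := by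
  classical
  choose E i1 i2 i3 i4 Φ h1 h2 h3 h4 using h
  have hmem : ∀ a : (∀ i, L i), ∀ x : ∀ i, E i,
      x ∈ AddSubgroup.pi Set.univ (fun i => Φ i (a i)) ↔ ∀ i, x i ∈ Φ i (a i) := by
    intro a x
    rw [AddSubgroup.mem_pi]
    simp
  refine ⟨∀ i, E i, inferInstance, inferInstance, inferInstance, inferInstance,
    fun a => AddSubgroup.pi Set.univ (fun i => Φ i (a i)), ?_, ?_, ?_, ?_⟩
  · intro a
    have : ((AddSubgroup.pi Set.univ (fun i => Φ i (a i)) : AddSubgroup (∀ i, E i)) :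
        Set (∀ i, E i)) = Set.pi Set.univ (fun i => (Φ i (a i) : Set (E i))) := by
      ext x
      simp [hmem]
    rw [this]
    exact isClosed_set_pi fun i _ => h1 i _
  · intro a b
    constructor
    · intro h i
      rw [← h2]
      intro x hx
      have hx' : Pi.single i x ∈ AddSubgroup.pi Set.univ (fun i => Φ i (a i)) := by
        rw [hmem]
        intro j
        by_cases hj : j = i
        · subst hj
          rw [Pi.single_eq_same]; exact hx
        · rw [Pi.single_eq_of_ne hj]; exact zero_mem _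
      have := (hmem _ _).1 (h hx') i
      rwa [Pi.single_eq_same] at this
    · intro h x hx
      rw [hmem] at hx ⊢
      exact fun i => (h2 i _ _).2 (h i) (hx i)
  · rintro a b x ⟨hx, hx'⟩
    have hx1 := (hmem _ _).1 hx
    have hx2 := (hmem _ _).1 hx'
    rw [hmem]
    exact fun i => h3 i _ _ ⟨hx1 i, hx2 i⟩
  · intro a b x hx
    rw [hmem] at hx
    have hdec : ∀ i, ∃ y ∈ Φ i (a i), ∃ z ∈ Φ i (b i), y + z = x i := fun i =>
      AddSubgroup.mem_sup.1 (h4 i _ _ (hx i))
    choose y hy z hz hyz using hdec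
    rw [AddSubgroup.mem_sup]
    exact ⟨y, (hmem _ _).2 hy, z, (hmem _ _).2 hz, funext hyz⟩

theorem rep_submodule (F : Type v) [Field F] (hF : #F ≤ continuum)
    (V : Type w) [AddCommGroup V] [Module F V] [Module.Finite F V] : Rep (Submodule F V) := by
  obtain ⟨A, i1, i2, i3, i4, ⟨σ⟩⟩ := exists_big F hF
  let b := Module.finBasis F V
  let φ : Submodule F V ≃o Submodule F (Fin (Module.finrank F V) → F) :=
    Submodule.orderIsoMapComap b.equivFun
  let h2 : LatticeHom (Submodule F V) (Submodule F (Fin (Module.finrank F V) → F)) :=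
    { toFun := φ
      map_sup' := fun a b => map_sup φ a b
      map_inf' := fun a b => map_inf φ a b }
  have hh2 : Function.Injective h2 := φ.injective
  refine Rep.comp ?_ h2 hh2
  exact ⟨Fin (Module.finrank F V) → A, inferInstance, inferInstance, inferInstance, inferInstance,
    fun V => Z σ V, Z_closed σ, fun _ _ => Z_le σ, Z_inf σ, Z_sup σ⟩

theorem Rep.group {L : Type v} [Lattice L] (h : Rep L) (X : Type u) [Countable X] [Infinite X] :
    ∃ f : LatticeHom L (LocalGroup X), Function.Injective f := by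
  obtain ⟨E, i1, i2, i3, i4, Φ, h1, h2, h3, h4⟩ := h
  obtain ⟨f, hf⟩ := mapCG Φ h1 h2 h3 h4
  obtain ⟨g, hg, _⟩ := engineG E X
  exact ⟨g.comp f, hg.comp hf⟩

theorem Rep.monoid {L : Type v} [Lattice L] (h : Rep L) (X : Type u) [Countable X] [Infinite X] :
    ∃ f : LatticeHom L (LocalMonoid X), Function.Injective f := by
  obtain ⟨E, i1, i2, i3, i4, Φ, h1, h2, h3, h4⟩ := h
  obtain ⟨f, hf⟩ := mapCG Φ h1 h2 h3 h4
  obtain ⟨g, hg⟩ := engineM E X
  exact ⟨g.comp f, hg.comp hf⟩

theorem Rep.clone {L : Type} [Lattice L] (h : Rep L) : ∃ f : L → Ops, IsLatticeEmbedding f := by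
  obtain ⟨f, hf⟩ := h.monoid ℕ
  exact ⟨_, embedding_of_hom f hf⟩

end Pool.Agent.Y407.LG
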